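import Mathlib
import Pool.Agent.H37.Eqn.Final

/-!
# Unimodular equations over metabelian groups have solutions in solvable overgroups

Let `G` be a metabelian group and let `w` be an element of the free product of `G` and the
infinite cyclic group generated by `x`, whose exponent sum in `x` is `1` or `-1`. Then `G` embeds
into a solvable group in which the equation `w = 1` has a solution.

In particular this covers the semidirect product of a cyclic group of order `7` and a cyclic
group of order `6` together with the equation of the problem file (and every other unimodular
equation over that group).

Sketch of the proof. Let `D` be the abelianization of `G`, `R` its integral group ring. By the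
theorem of Kaloujnine and Krasner `G` is a group of upper triangular matrices with diagonal
`(d, 1)`, `d` in `D`. We look for `x` of the form of a two by two matrix with entries
`p, q, r, s` and determinant one over a quotient of the ring of power series in `q` and `r`, where
`p` and `s` are series in `q r`, fixed by the requirement that the upper left entry of the value
of `w` be equal to one. The remaining entries are `q Q(q r)` and `r S(q r)`, and one may divide
them out, up to the constant coming from the derived subgroup, without changing `G`, provided that
for each complex unitary character of `D` the series `Q` is not zero and `S` has at least the
order of `Q`. The second point follows from the symmetry given by the inverse transpose together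
with complex conjugation. For the first point, if `Q` were zero then the symmetry would fix the
curve parametrised by `(p, s)`; the equation of this curve, restricted to the hyperbola
`p s = 1`, is `c z ^ k (z - 1)`, and the symmetry is impossible by parity.
-/

set_option autoImplicit false

namespace Pool.Agent.Results.MP_82f054_al.Metabelian

/-- Every unimodular equation over a metabelian group has a solution in a solvable overgroup. -/
theorem result (G : Type) [Group G] (hG : derivedSeries G 2 = ⊥)
    (w : Monoid.Coprod G (FreeGroup Unit))
    (hw : Monoid.Coprod.lift (1 : G →* Multiplicative ℤ)
            (FreeGroup.lift (fun _ => Multiplicative.ofAdd (1 : ℤ))) w
              = Multiplicative.ofAdd (1 : ℤ) ∨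
          Monoid.Coprod.lift (1 : G →* Multiplicative ℤ)
            (FreeGroup.lift (fun _ => Multiplicative.ofAdd (1 : ℤ))) w
              = Multiplicative.ofAdd (-1 : ℤ)) :
    ∃ (H : Type) (_ : Group H), Group.IsSolvable H ∧
      ∃ φ : G →* H, Function.Injective φ ∧
        ∃ h : H, Monoid.Coprod.lift φ (FreeGroup.lift (fun _ => h)) w = 1 :=
  H37.Eqn.metabelian hG w hw

end Pool.Agent.Results.MP_82f054_al.Metabelian
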